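import Pool.Agent.TH884.Kz.Resolution

/-!
Weigel asked whether `b_2(A) ≤ (n-1)/(2n) * b_1(A)^2` for every Koszul algebra `A` of finite
cohomological dimension `n`. Over every field there is a Koszul algebra of cohomological
dimension `3` with Betti numbers `1, 7, 17, 16`, so the answer is negative:
`2 * 3 * 17 = 102 > 98 = 2 * 7 ^ 2`.

The algebra has generators `x_0, ..., x_6` and the relations
* `x_4 x_i = 0` for `i = 0, 1, 2, 3`;
* `(x_5 + x_0 + x_1) x_0 = 0`, `(x_5 + x_0 + x_1) x_2 = 0`;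
* `(x_5 + x_2 + x_3) x_1 = 0`, `(x_5 + x_2 + x_3) x_3 = 0`;
* `x_i x_5 = 0` for `i = 0, 1, 2, 3` and `x_i x_6 = 0` for `i = 0, 1, 2, 3, 4`.
-/

namespace Pool.Agent.Results.MP_2e24ef_al.KoszulTuran

open Pool.Agent.TH884.Kz

universe u

theorem result (k : Type u) [Field k] :
    ∃ Q : QuadData k, Q.IsKoszul ∧
      (∀ i, Module.Finite k (CategoryTheory.Abelian.Ext Q.triv Q.triv i)) ∧
      IsGreatest {i : ℕ | Q.betti i ≠ 0} 3 ∧
      Q.betti 0 = 1 ∧ Q.betti 1 = 7 ∧ Q.betti 2 = 17 ∧ Q.betti 3 = 16 ∧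
      (3 - 1) * Q.betti 1 ^ 2 < 2 * 3 * Q.betti 2 := by
  have h0 := (betti_eq (Example.res k) 0).trans (Example.res k).card_zero
  have h1 := (betti_eq (Example.res k) 1).trans (Example.card_one k)
  have h2 := (betti_eq (Example.res k) 2).trans (Example.card_two k)
  have h3 := (betti_eq (Example.res k) 3).trans (Example.card_three k)
  refine ⟨(Example.data k).quad, ⟨Example.res k⟩, finite_ext ⟨Example.res k⟩, ⟨?_, ?_⟩,
    h0, h1, h2, h3, ?_⟩
  · change (Example.data k).quad.betti 3 ≠ 0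
    rw [h3]
    norm_num
  · intro i hi
    by_contra h
    obtain ⟨n, rfl⟩ : ∃ n, i = n + 4 := ⟨i - 4, by omega⟩
    exact hi ((betti_eq (Example.res k) (n + 4)).trans (Example.card_add_four k n))
  · rw [h1, h2]
    norm_num

end Pool.Agent.Results.MP_2e24ef_al.KoszulTuran
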