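import Pool.Agent.TH38.KosRes
import Pool.Agent.TH38.KosExt

/-!
# A Koszul algebra with `b_2 > (n - 1) / (2 n) * b_1 ^ 2`

For every field `k` the quadratic algebra
`A = k⟨a, b, c, d⟩ / ((a+b+d)a, ab, ac, bc, bd, cd, d(a+b+c+d))`
is Koszul with Betti numbers `b_i = dim Ext^i_A(k, k) = 1, 4, 7, 8, 7, 4, 1`, that is
`∑ b_i t^i = (1+t)^4 (1+t^2)`; here `n = 6` and `2 n b_2 = 84 > 80 = (n-1) b_1^2`.
-/

universe u

open CategoryTheory Polynomial

namespace Pool.Agent.Results.MP_2e24ef_al.WeigelDisproof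

open Pool.Agent.TH38.Kos

lemma extDim_ex (k : Type u) [Field k] (i : ℕ) : ExtDim k (exRel k) i (rk i) := by
  have hmin : ∀ i p q, aug k (exRel k) (diff k i p q) = 0 := by
    intro i p q
    have h : degOne k (exRel k) ≤ LinearMap.ker (aug k (exRel k)).toLinearMap := by
      refine Submodule.span_le.2 ?_
      rintro _ ⟨j, rfl⟩
      exact aug_gen j
    exact h (diff_linear i p q)
  exact ExtAux.rank_ext (aug k (exRel k)) rfl exact0 diff_exact hmin i

lemma rk_eq (i : ℕ) : rk i = ((1 + X) ^ 4 * (1 + X ^ 2) : ℕ[X]).coeff i := by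
  have h : ((1 + X) ^ 4 * (1 + X ^ 2) : ℕ[X]) =
      1 + 4 * X + 7 * X ^ 2 + 8 * X ^ 3 + 7 * X ^ 4 + 4 * X ^ 5 + X ^ 6 := by ring
  rw [h]
  simp only [coeff_add, coeff_one, coeff_ofNat_mul, coeff_X, coeff_X_pow]
  match i with
  | 0 => rfl
  | 1 => rfl
  | 2 => rfl
  | 3 => rfl
  | 4 => rfl
  | 5 => rfl
  | 6 => rfl
  | n + 7 =>
    have h0 : rk (n + 7) = 0 := rfl
    rw [h0]
    simp

/-- **Weigel's inequality fails**: over every field `k` there is a Koszul algebra, with four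
generators and with Poincare polynomial `(1+t)^4 (1+t^2)`, whose Betti numbers
`b i = dim Ext^i_A(k, k)` satisfy `b 2 > (n - 1) / (2 n) * (b 1) ^ 2`, `n` being the (finite)
cohomological dimension. -/
theorem result (k : Type u) [Field k] :
    ∃ (R : Set (Matrix (Fin 4) (Fin 4) k)) (b : ℕ → ℕ) (n : ℕ),
      IsKoszul k R ∧
      (∀ i, ExtDim k R i (b i)) ∧
      (∀ i, b i = ((1 + X) ^ 4 * (1 + X ^ 2) : ℕ[X]).coeff i) ∧
      1 ≤ n ∧ b n ≠ 0 ∧ (∀ i, n < i → b i = 0) ∧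
      ((n : ℚ) - 1) / (2 * n) * (b 1 : ℚ) ^ 2 < b 2 := by
  refine ⟨exRel k, rk, 6, ex_isKoszul, extDim_ex k, rk_eq, by norm_num, by simp [rk], ?_, ?_⟩
  · intro i hi
    obtain ⟨j, rfl⟩ := Nat.exists_eq_add_of_lt hi
    have : 6 + j + 1 = j + 7 := by omega
    rw [this]
    rfl
  · norm_num [rk]

end Pool.Agent.Results.MP_2e24ef_al.WeigelDisproof
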